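import Mathlib
import Pool.Agent.H287R3.LR.Graph

/-!
# From protocols for the pieces of a graph to colourings
(helper249, for MP_3bd889_lc)
-/

set_option autoImplicit false

namespace Pool.Agent.X249.GR

open Finset Pool.Agent.H630R2.LR Pool.Agent.H287R3.LR

/-- If the vertices of a graph are covered by the images of `t` maps such that adjacency pulled back
by each of them has a protocol with at most `B` bits, then `log₂ χ(G) ≤ log₂ t + B`. -/
theorem chrom_cover {V : Type} [Fintype V] (G : SimpleGraph V) [DecidableRel G.Adj] (t : ℕ)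
    (X : Fin t → Type) (φ : ∀ j, X j → V) (hφ : ∀ v, ∃ j x, φ j x = v) (B : ℝ) (hB : 0 ≤ B)
    (h : ∀ j, ∃ c : ℕ, Proto (fun x y : X j => decide (G.Adj (φ j x) (φ j y))) c ∧ (c : ℝ) ≤ B) :
    Real.logb 2 (G.chromaticNumber.toNat : ℝ) ≤ Real.logb 2 t + B := by
  classical
  choose c hc hcB using h
  choose owner a b out hout using hc
  choose j₀ x₀ hx₀ using hφ
  obtain ⟨M, hM⟩ : ∃ M : ℕ, M = ⌊B⌋₊ := ⟨_, rfl⟩
  have hcM : ∀ j, c j ≤ M := fun j => by rw [hM]; exact Nat.le_floor (hcB j)
  let T : ∀ j : Fin t, X j → List Bool := fun j x => tr (owner j) (a j) (b j) x x (c j)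
  have hTl : ∀ j x, (T j x).length = c j := fun j x => tr_length _ _ _ _ _ _
  let col : V → Fin t × (Fin M → Bool) := fun v =>
    (j₀ v, fun i => (T (j₀ v) (x₀ v)).getD i false)
  have hcol : G.Coloring (Fin t × (Fin M → Bool)) := by
    refine SimpleGraph.Coloring.mk col fun {v w} hvw heq => ?_
    have h1 : j₀ v = j₀ w := congrArg Prod.fst heq
    have h2 := congrArg Prod.snd heq
    obtain ⟨y, hy, hTy⟩ : ∃ y : X (j₀ v), φ (j₀ v) y = w ∧ ∀ i : Fin M,
        (T (j₀ v) (x₀ v)).getD i false = (T (j₀ v) y).getD i false := by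
      have key : ∀ (j : Fin t) (hj : j₀ w = j), ∃ y : X j, φ j y = w ∧ ∀ i : Fin M,
          (T (j₀ w) (x₀ w)).getD i false = (T j y).getD i false := by
        intro j hj
        subst hj
        exact ⟨x₀ w, hx₀ w, fun i => rfl⟩
      obtain ⟨y, hy, hyT⟩ := key (j₀ v) h1.symm
      exact ⟨y, hy, fun i => (congrFun h2 i).trans (hyT i)⟩
    have h3 : T (j₀ v) (x₀ v) = T (j₀ v) y := by
      apply List.ext_getElem
      · rw [hTl, hTl]
      · intro i hi1 hi2
        have hi : i < M := by
          have := hTl (j₀ v) (x₀ v)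
          have := hcM (j₀ v)
          omega
        have h4 := hTy ⟨i, hi⟩
        simp only at h4
        rwa [List.getD_eq_getElem _ _ hi1, List.getD_eq_getElem _ _ hi2] at h4
    have h4 := tr_rect (owner (j₀ v)) (a (j₀ v)) (b (j₀ v)) (x₀ v) y (x₀ v) y (c (j₀ v)) h3
    have h5 := hout (j₀ v) (x₀ v) y
    have h6 := hout (j₀ v) (x₀ v) (x₀ v)
    change out (j₀ v) (tr (owner (j₀ v)) (a (j₀ v)) (b (j₀ v)) (x₀ v) y (c (j₀ v))) = _ at h5
    change out (j₀ v) (tr (owner (j₀ v)) (a (j₀ v)) (b (j₀ v)) (x₀ v) (x₀ v) (c (j₀ v))) = _ at h6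
    rw [h4, h6] at h5
    simp only [hy, hx₀] at h5
    simp [hvw] at h5
  have hcard : Fintype.card (Fin t × (Fin M → Bool)) = t * 2 ^ M := by
    rw [Fintype.card_prod, Fintype.card_fin, Fintype.card_fun, Fintype.card_bool, Fintype.card_fin]
  have hcc : G.Colorable (t * 2 ^ M) := by
    rw [← hcard]
    exact hcol.colorable
  have h1 : G.chromaticNumber ≤ (t * 2 ^ M : ℕ) := hcc.chromaticNumber_le
  have h2 : G.chromaticNumber.toNat ≤ t * 2 ^ M := by
    have := ENat.toNat_le_toNat h1 (ENat.natCast_ne_top _)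
    rwa [ENat.toNat_natCast] at this
  have hMB : (M : ℝ) ≤ B := by rw [hM]; exact Nat.floor_le hB
  rcases Nat.eq_zero_or_pos G.chromaticNumber.toNat with h0 | h0
  · rw [h0, Nat.cast_zero, Real.logb_zero]
    have : 0 ≤ Real.logb 2 (t : ℝ) := by
      rcases Nat.eq_zero_or_pos t with h | h
      · rw [h, Nat.cast_zero, Real.logb_zero]
      · exact Real.logb_nonneg (by norm_num) (by exact_mod_cast h)
    linarith
  · have ht : 0 < t := by
      rcases Nat.eq_zero_or_pos t with h | h
      · rw [h, zero_mul] at h2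
        omega
      · exact h
    have htr : (0 : ℝ) < t := by exact_mod_cast ht
    calc Real.logb 2 (G.chromaticNumber.toNat : ℝ) ≤ Real.logb 2 ((t * 2 ^ M : ℕ) : ℝ) :=
          Real.logb_le_logb_of_le (by norm_num) (by exact_mod_cast h0) (by exact_mod_cast h2)
      _ = Real.logb 2 t + M := by
          push_cast
          rw [Real.logb_mul htr.ne' (by positivity), Real.logb_pow, Real.logb_self_eq_one (by norm_num),
            mul_one]
      _ ≤ Real.logb 2 t + B := by linarith

/-- the rank of a pulled back adjacency matrix -/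
theorem rank_pull {V X : Type} [Fintype V] [Fintype X] (G : SimpleGraph V) [DecidableRel G.Adj]
    (φ : X → V) (F : X → X → Bool) (hF : ∀ x y, F x y = decide (G.Adj (φ x) (φ y))) :
    (Matrix.of (fun (x : X) (y : X) => if F x y then (1 : ℝ) else 0)).rank ≤
      (G.adjMatrix ℝ).rank := by
  classical
  have e : (Matrix.of (fun (x : X) (y : X) => if F x y then (1 : ℝ) else 0)) =
      (G.adjMatrix ℝ).submatrix φ φ := by
    ext x y
    simp [hF, SimpleGraph.adjMatrix_apply]
  rw [e]
  exact Matrix.rank_submatrix_le _ _ _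

/-- logarithms of ranks are monotone -/
theorem logb_mono {a b : ℕ} (h : a ≤ b) : Real.logb 2 (a : ℝ) ≤ Real.logb 2 (b : ℝ) := by
  rcases Nat.eq_zero_or_pos a with h0 | h0
  · rw [h0, Nat.cast_zero, Real.logb_zero]
    rcases Nat.eq_zero_or_pos b with h1 | h1
    · rw [h1, Nat.cast_zero, Real.logb_zero]
    · exact Real.logb_nonneg (by norm_num) (by exact_mod_cast h1)
  · exact Real.logb_le_logb_of_le (by norm_num) (by exact_mod_cast h0) (by exact_mod_cast h)

theorem logb_nonneg (b : ℕ) : 0 ≤ Real.logb 2 (b : ℝ) := by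
  rcases Nat.eq_zero_or_pos b with h1 | h1
  · rw [h1, Nat.cast_zero, Real.logb_zero]
  · exact Real.logb_nonneg (by norm_num) (by exact_mod_cast h1)

end Pool.Agent.X249.GR
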